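import Pool.Agent.H.MP_56eb46_lc.B
import Pool.Agent.Lib.helper21.Cone2

set_option autoImplicit false

namespace Pool.Agent.Results.MP_56eb46_lc.Minimal

open Pool.Agent.Lib.helper21.Cone

/-- The word `a_1^{n_1} ⋯ a_k^{n_k}` over the letters `Fin k`. -/
def bw {k : ℕ} (n : Fin k → ℕ) : List (Fin k) :=
  (List.finRange k).flatMap fun j => List.replicate (n j) j

/-- The language `S_≠^{(k)}`. -/
def S (k : ℕ) : Language (Fin k) :=
  {w | ∃ n : Fin k → ℕ, (∃ i j : Fin k, j.val = i.val + 1 ∧ n i ≠ n j) ∧ w = bw n}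

/-- `L ⊆ u_1^* ⋯ u_k^*` for some words `u_1, …, u_k`. -/
def Bounded {X : Type} (k : ℕ) (L : Language X) : Prop :=
  ∃ u : Fin k → List X, ∀ v ∈ L, ∃ n : Fin k → ℕ,
    v = (List.finRange k).flatMap fun j => (List.replicate (n j) (u j)).flatten

open List Pool.Agent.H.MP_56eb46_lc

variable {k : ℕ}

theorem count_bw (n : Fin k → ℕ) (j : Fin k) : (bw n).count j = n j := by
  rw [bw, count_flatMap, ← Fin.sum_univ_def, Finset.sum_eq_single j]
  · simp
  · intro i _ hi; simp [count_replicate, hi]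
  · simp

theorem sorted_bw (n : Fin k → ℕ) : (bw n).Pairwise (· ≤ ·) := by
  rw [bw, pairwise_flatMap]
  refine ⟨fun j _ => by simp, (pairwise_lt_finRange k).imp fun h x hx y hy => ?_⟩
  rw [eq_of_mem_replicate hx, eq_of_mem_replicate hy]; exact h.le

theorem eq_bw {w : List (Fin k)} (h : w.Pairwise (· ≤ ·)) : w = bw fun j => w.count j :=
  (perm_iff_count.2 fun j => by rw [count_bw]).eq_of_pairwise
    (fun _ _ _ _ => le_antisymm) h (sorted_bw _)

theorem adj {n : Fin k → ℕ} : (∃ i j : Fin k, j.val = i.val + 1 ∧ n i ≠ n j) ↔ ∃ i j, n i ≠ n j := by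
  refine ⟨fun ⟨i, j, _, h⟩ => ⟨i, j, h⟩, fun ⟨i, j, h⟩ => by_contra fun hn => h ?_⟩
  push Not at hn
  have : ∀ m (hm : m < k), n ⟨m, hm⟩ = n ⟨0, by omega⟩ := by
    intro m
    induction m with
    | zero => intro _; rfl
    | succ m ih => intro hm; rw [← ih (by omega)]; exact (hn ⟨m, by omega⟩ ⟨m + 1, hm⟩ rfl).symm
  exact (this i i.2).trans (this j j.2).symm

theorem mem_S {w : List (Fin k)} : w ∈ S k ↔ w.Pairwise (· ≤ ·) ∧ ∃ i j, w.count i ≠ w.count j :=
  ⟨fun ⟨n, h, e⟩ => by subst e; exact ⟨sorted_bw n, by simpa [count_bw] using adj.1 h⟩,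
    fun ⟨h1, h2⟩ => ⟨_, adj.2 h2, eq_bw h1⟩⟩

def blocks {Z : Type} (u : Fin k → List Z) (a : Fin k → Z) (ls : List (Fin k)) : Language Z :=
  {w | ∃ t : Fin k → ℕ, w = ls.flatMap fun j => u j ++ replicate (t j) (a j)}

theorem reg_blocks {Z : Type} [Finite Z] (u : Fin k → List Z) (a : Fin k → Z) (ls : List (Fin k)) :
    ls.Nodup → (blocks u a ls).IsRegular := by
  induction ls with
  | nil =>
    intro _
    convert reg_single ([] : List Z) using 1
    exact Set.ext fun w => ⟨fun ⟨_, e⟩ => e, fun e => ⟨0, e⟩⟩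
  | cons j ls ih =>
    intro hn
    rw [nodup_cons] at hn
    convert reg_mul (reg_mul (reg_single (u j)) (reg_pow (a j))) (ih hn.2) using 1
    refine Set.ext fun w => ⟨?_, ?_⟩
    · rintro ⟨t, rfl⟩
      exact ⟨_, ⟨_, rfl, _, ⟨t j, rfl⟩, rfl⟩, _, ⟨t, rfl⟩, rfl⟩
    · rintro ⟨_, ⟨_, rfl, _, ⟨n, rfl⟩, rfl⟩, _, ⟨t, rfl⟩, rfl⟩
      refine ⟨Function.update t j n, ?_⟩
      rw [flatMap_cons, Function.update_self]
      congr 1
      refine flatMap_congr fun i hi => ?_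
      rw [Function.update_of_ne (by rintro rfl; exact hn.1 hi)]

def Srt (k : ℕ) : Language (Fin k) := {w | w.Pairwise (· ≤ ·)}

theorem reg_srt : (Srt k).IsRegular := by
  convert reg_blocks (fun _ => []) id _ (nodup_finRange k) using 1
  exact Set.ext fun w => ⟨fun h => ⟨_, eq_bw h⟩, fun ⟨t, e⟩ => e ▸ sorted_bw t⟩

theorem reg_comap {Z X : Type} (h : Z → List X) {R : Language X} (r : R.IsRegular) :
    Language.IsRegular ({w | w.flatMap h ∈ R} : Set (List Z)) := by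
  obtain ⟨σ, _, δ, s, F, e⟩ := reg_iff.1 r
  exact reg_iff.2 ⟨σ, inferInstance, fun q z => (h z).foldl δ q, s, F, fun w => by
    rw [← foldl_flatMap, ← e]; rfl⟩

def small (k N : ℕ) : Language (Fin k) := {w | ∃ n < N, w = bw fun _ => n}

theorem reg_small (N : ℕ) : (small k N).IsRegular := by
  induction N with
  | zero =>
    convert (reg_univ (Z := Fin k)).compl using 1
    exact Set.ext fun w => ⟨fun ⟨_, h, _⟩ => by omega, fun h => (h trivial).elim⟩
  | succ N ih =>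
    convert ih.add (reg_single (bw fun _ => N)) using 1
    refine Set.ext fun w => ⟨fun ⟨n, h, e⟩ => ?_, ?_⟩
    · rcases Nat.lt_succ_iff_lt_or_eq.1 h with h | rfl
      · exact Or.inl ⟨n, h, e⟩
      · exact Or.inr e
    · rintro (⟨n, h, e⟩ | e)
      · exact ⟨n, by omega, e⟩
      · exact ⟨N, by omega, e⟩

theorem strict (hk : 3 ≤ k) {L : Language (Fin k)} (hs : ∀ w ∈ L, w.Pairwise (· ≤ ·))
    (a : RatImage (S k) L) (hn : ¬ L.IsRegular) : RatImage L (S k) := by
  obtain ⟨Z, σ0, _, _, h, g, δ0, s0, F0, hl, e0⟩ := a.normal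
  have r0 : Language.IsRegular ({w | F0 (w.foldl δ0 s0)} : Set (List Z)) :=
    reg_iff.2 ⟨σ0, inferInstance, δ0, s0, F0, fun _ => Iff.rfl⟩
  have r1 := r0.inf ((reg_comap h reg_srt).inf (reg_comap g reg_srt))
  obtain ⟨σ, _, δ, s, F, e⟩ := reg_iff.1 r1
  have e1 : ∀ w : List Z, F (w.foldl δ s) ↔ F0 (w.foldl δ0 s0) ∧ (w.flatMap h).Pairwise (· ≤ ·) ∧
    (w.flatMap g).Pairwise (· ≤ ·) := fun w => (e w).symm
  have hP : ∀ b, bw b ∈ L ↔ P δ s F h g b := fun b => by
    constructor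
    · intro hb
      obtain ⟨w, a1, a2, a3⟩ := (e0 _).1 hb
      rw [mem_S] at a2
      exact ⟨_, ⟨w, (e1 w).2 ⟨a1, a2.1, a3 ▸ sorted_bw b⟩, fun _ => rfl,
        fun j => by rw [cnt, a3, count_bw]⟩, a2.2⟩
    · rintro ⟨a, ⟨w, a1, a2, a3⟩, a4⟩
      rw [e1] at a1
      obtain rfl := funext a2
      obtain rfl := funext a3
      exact (e0 _).2 ⟨w, a1.1, mem_S.2 ⟨a1.2.1, a4⟩, eq_bw a1.2.2⟩
  obtain ⟨b, d, hc⟩ := core (δ := δ) (s := s) (F := F) (h := h) (g := g) hk
    (fun z => by have := hl z; omega) (fun z => by have := hl z; omega)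
    (fun w hw => ((e1 w).1 hw).2.1) (fun w hw => ((e1 w).1 hw).2.2) (fun N => by
      by_contra hN
      push Not at hN
      refine hn (RatImage.regular ⟨Z, inferInstance, h, g, _, r1, fun v => ⟨fun hv => ?_, ?_⟩⟩
        (reg_small (k := k) N).compl)
      · obtain ⟨w, a1, a2, rfl⟩ := (e0 _).1 hv
        rw [mem_S] at a2
        refine ⟨w, ⟨a1, a2.1, hs _ hv⟩, ?_, rfl⟩
        rintro ⟨n, -, hn⟩
        simp [hn, count_bw] at a2
      · rintro ⟨w, a1, a2, rfl⟩
        have a3 := (e w).1 a1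
        obtain ⟨-, a4, a5⟩ := (e1 w).1 a3
        rw [eq_bw a5, hP]
        by_cases hc : ∃ i j, cnt h i w ≠ cnt h j w
        · exact ⟨_, ⟨w, a3, fun _ => rfl, fun _ => rfl⟩, hc⟩
        push Not at hc
        have i0 : Fin k := ⟨0, by omega⟩
        refine hN (cnt h i0 w) _ (not_lt.1 fun hlt => a2 ⟨_, hlt, ?_⟩)
          ⟨w, a3, fun j => hc j i0, fun _ => rfl⟩
        rw [eq_bw a4]
        exact congrArg bw (funext fun j => hc j i0))
  refine ⟨Fin k × Bool, inferInstance, fun z => replicate (if z.2 then b z.1 else d z.1) z.1,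
    fun z => if z.2 then [] else [z.1], _,
    reg_blocks (fun j => [(j, true)]) (fun j => (j, false)) _ (nodup_finRange k), fun v => ?_⟩
  have k1 : ∀ t : Fin k → ℕ, ((finRange k).flatMap fun j => [(j, true)] ++ replicate (t j) (j, false)).flatMap
      (fun z => replicate (if z.2 then b z.1 else d z.1) z.1) = bw fun l => b l + t l * d l := by
    intro t
    simp [flatMap_assoc, bw, flatMap_replicate]
  have k2 : ∀ t : Fin k → ℕ, ((finRange k).flatMap fun j => [(j, true)] ++ replicate (t j) (j, false)).flatMap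
      (fun z => if z.2 then [] else [z.1]) = bw t := by
    intro t
    simp [flatMap_assoc, bw, flatMap_replicate]
  constructor
  · rintro ⟨t, ht, rfl⟩
    exact ⟨_, ⟨t, rfl⟩, by rw [k1, hP, hc]; exact adj.1 ht, k2 t⟩
  · rintro ⟨_, ⟨t, rfl⟩, ht, rfl⟩
    rw [k1, hP, hc] at ht
    exact ⟨t, adj.2 ht, k2 t⟩

theorem result (k : ℕ) (hk : 3 ≤ k) (X : Type) [Finite X] (L : Language X) (hb : Bounded k L)
    (hL : T (S k) X L) :
    L.IsRegular ∨ ∀ (Y : Type) [Finite Y] (M : Language Y), T L Y M ↔ T (S k) Y M := by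
  rw [or_iff_not_imp_left]
  intro hn Y _ M
  obtain ⟨u, hu⟩ := hb
  have a := T_iff.1 hL
  let L' : Language (Fin k) := {w | w.Pairwise (· ≤ ·) ∧ w.flatMap u ∈ L}
  have a1 : RatImage L L' := ⟨Fin k, inferInstance, u, fun j => [j], _, reg_srt, fun v =>
    ⟨fun h => ⟨v, h.1, h.2, by simp⟩, fun ⟨w, h1, h2, e⟩ => by
      rw [flatMap_singleton'] at e; exact e ▸ ⟨h1, h2⟩⟩⟩
  have a2 : RatImage L' L := ⟨Fin k, inferInstance, fun j => [j], u, _, reg_univ, fun v =>
    ⟨fun h => by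
      obtain ⟨n, hn⟩ := hu v h
      have : (bw n).flatMap u = v := by simp [hn, bw, flatMap_assoc, flatMap_replicate]
      exact ⟨bw n, trivial, by rw [flatMap_singleton']; exact ⟨sorted_bw n, this ▸ h⟩, this⟩,
    fun ⟨w, _, h2, e⟩ => by rw [flatMap_singleton'] at h2; exact e ▸ h2.2⟩⟩
  have a3 := a1.trans (strict hk (fun w hw => hw.1) (a.trans a1) fun r => hn (a2.regular r))
  rw [T_iff, T_iff]
  exact ⟨a.trans, a3.trans⟩

end Pool.Agent.Results.MP_56eb46_lc.Minimal
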